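import Pool.Agent.Helper85.SubLOCM
import Pool.Agent.Helper98.SubSUBK
import Pool.Agent.Helper94.Sub.Basic

/-!
# The absolute values at all embeddings of a number field: ring of integers, product inequality
-/

set_option autoImplicit false

namespace Pool.Agent.Helper85.RC

open Pool.Agent.Helper85.Sub Pool.Agent.Helper10.Sub NumberField Polynomial IsDedekindDomain

section ring
variable (K : Type) [Field K]

/-- Elements which are integral up to a power of `P`. -/
def OP (P : ℕ) : Subring K where
  carrier := {x | ∃ n : ℕ, IsIntegral ℤ ((P : K) ^ n * x)}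
  mul_mem' := by
    rintro x y ⟨n, hn⟩ ⟨m, hm⟩
    refine ⟨n + m, ?_⟩
    have : (P : K) ^ (n + m) * (x * y) = ((P : K) ^ n * x) * ((P : K) ^ m * y) := by ring
    rw [this]
    exact hn.mul hm
  one_mem' := ⟨0, by simpa using isIntegral_one⟩
  add_mem' := by
    rintro x y ⟨n, hn⟩ ⟨m, hm⟩
    refine ⟨n + m, ?_⟩
    have : (P : K) ^ (n + m) * (x + y) =
        (P : K) ^ m * ((P : K) ^ n * x) + (P : K) ^ n * ((P : K) ^ m * y) := by ring
    rw [this]
    have hP : IsIntegral ℤ (P : K) := isIntegral_natCast _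
    exact ((hP.pow _).mul hn).add ((hP.pow _).mul hm)
  zero_mem' := ⟨0, by simpa using isIntegral_zero⟩
  neg_mem' := by
    rintro x ⟨n, hn⟩
    refine ⟨n, ?_⟩
    rw [mul_neg]
    exact hn.neg

variable {K}

lemma mem_OP {P : ℕ} {x : K} : x ∈ OP K P ↔ ∃ n : ℕ, IsIntegral ℤ ((P : K) ^ n * x) := Iff.rfl

lemma integral_mono {P : ℕ} {x : K} {n m : ℕ} (h : n ≤ m) (hx : IsIntegral ℤ ((P : K) ^ n * x)) :
    IsIntegral ℤ ((P : K) ^ m * x) := by
  have hP : IsIntegral ℤ (P : K) := isIntegral_natCast _
  have : (P : K) ^ m * x = (P : K) ^ (m - n) * ((P : K) ^ n * x) := by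
    rw [← mul_assoc, ← pow_add, Nat.sub_add_cancel h]
  rw [this]
  exact (hP.pow _).mul hx

/-- A root of a monic polynomial with integral coefficients is integral. -/
lemma isIntegral_of_monic_root {x : K} (f : K[X]) (hf : f.Monic)
    (hc : ∀ k, IsIntegral ℤ (f.coeff k)) (hx : f.eval x = 0) : IsIntegral ℤ x := by
  set R : Subalgebra ℤ K := integralClosure ℤ K with hR
  have h1 : f ∈ Polynomial.lifts (algebraMap R K) := by
    rw [Polynomial.lifts_iff_coeff_lifts]
    intro k
    exact ⟨⟨f.coeff k, hc k⟩, rfl⟩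
  obtain ⟨g, hg, -, hgm⟩ := Polynomial.lifts_and_degree_eq_and_monic h1 hf
  have h2 : IsIntegral R x := by
    refine ⟨g, hgm, ?_⟩
    rw [← Polynomial.eval_map, hg, hx]
  exact isIntegral_trans (R := ℤ) (A := R) x h2

/-- The ring is integrally closed. -/
lemma OP_closed {P : ℕ} (x : K)
    (h : ∃ f : K[X], f.Monic ∧ (∀ k, f.coeff k ∈ OP K P) ∧ f.eval x = 0) : x ∈ OP K P := by
  obtain ⟨f, hfm, hfc, hfx⟩ := h
  choose n hn using hfc
  set N := ∑ k ∈ Finset.range (f.natDegree + 1), n k with hN
  have hint : ∀ k, IsIntegral ℤ ((P : K) ^ N * f.coeff k) := by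
    intro k
    by_cases hk : k ≤ f.natDegree
    · refine integral_mono ?_ (hn k)
      exact Finset.single_le_sum (f := n) (fun _ _ => Nat.zero_le _)
        (Finset.mem_range.2 (by omega))
    · rw [Polynomial.coeff_eq_zero_of_natDegree_lt (by omega), mul_zero]
      exact isIntegral_zero
  have hPi : IsIntegral ℤ (P : K) := isIntegral_natCast _
  refine ⟨N, ?_⟩
  refine isIntegral_of_monic_root (f.scaleRoots ((P : K) ^ N)) ?_ ?_ ?_
  · exact (Polynomial.monic_scaleRoots_iff _).2 hfm
  · intro k
    rw [Polynomial.coeff_scaleRoots]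
    by_cases hk : k < f.natDegree
    · have : f.coeff k * ((P : K) ^ N) ^ (f.natDegree - k) =
          ((P : K) ^ N) ^ (f.natDegree - k - 1) * ((P : K) ^ N * f.coeff k) := by
        have h1 : f.natDegree - k = (f.natDegree - k - 1) + 1 := by omega
        conv_lhs => rw [h1, pow_succ]
        ring
      rw [this]
      exact ((hPi.pow _).pow _).mul (hint k)
    · rcases Nat.lt_or_ge f.natDegree k with h1 | h1
      · rw [Polynomial.coeff_eq_zero_of_natDegree_lt h1, zero_mul]
        exact isIntegral_zero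
      · have : k = f.natDegree := by omega
        rw [this, Nat.sub_self, pow_zero, mul_one]
        rw [show f.coeff f.natDegree = 1 from hfm]
        exact isIntegral_one
  · have h1 := Polynomial.scaleRoots_eval₂_eq_zero (p := f) (RingHom.id K) (r := x)
      (s := (P : K) ^ N) (by rw [Polynomial.eval₂_id]; exact hfx)
    rwa [Polynomial.eval₂_id] at h1

end ring

section places
variable {K : Type} [Field K] [NumberField K]

lemma finitePlace_le_one (v : FinitePlace K) {x : K} (hx : IsIntegral ℤ x) : v x ≤ 1 := by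
  have h2 := FinitePlace.norm_le_one (K := K) (v := v.maximalIdeal) (⟨x, hx⟩ : 𝓞 K)
  rw [← FinitePlace.mk_apply, FinitePlace.mk_maximalIdeal] at h2
  exact h2

/-- An element with all finite absolute values at most one is integral. -/
lemma isIntegral_of_le (x : K) (h : ∀ v : FinitePlace K, v x ≤ 1) : IsIntegral ℤ x := by
  have h1 : x ∈ (algebraMap (𝓞 K) K).range := by
    apply IsDedekindDomain.HeightOneSpectrum.mem_integers_of_valuation_le_one
    intro v
    have h2 := h (FinitePlace.mk v)
    rwa [mk_le_one_iff] at h2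
  obtain ⟨y, rfl⟩ := h1
  exact RingOfIntegers.isIntegral_coe y

/-- Elements with poles over the primes dividing `P` only. -/
lemma mem_OP_of_le (S : Finset (FinitePlace K)) (P : ℕ)
    (hS : ∀ v ∈ S, (P : 𝓞 K) ∈ v.maximalIdeal.asIdeal) (x : K)
    (hx : ∀ v : FinitePlace K, v ∉ S → v x ≤ 1) : x ∈ OP K P := by
  classical
  have hPi : IsIntegral ℤ (P : K) := isIntegral_natCast _
  have hlt : ∀ v ∈ S, v (P : K) < 1 := by
    intro v hv
    have h1 := (FinitePlace.norm_lt_one_iff_mem K v.maximalIdeal (P : 𝓞 K)).2 (hS v hv)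
    rw [← FinitePlace.mk_maximalIdeal v, FinitePlace.mk_apply]
    simpa using h1
  have hn : ∀ v ∈ S, ∃ n : ℕ, v (P : K) ^ n * v x ≤ 1 := by
    intro v hv
    have h1 := (tendsto_pow_atTop_nhds_zero_of_lt_one (apply_nonneg v _) (hlt v hv)).mul_const (v x)
    rw [zero_mul] at h1
    obtain ⟨n, hn⟩ := (h1.eventually (gt_mem_nhds one_pos)).exists
    exact ⟨n, hn.le⟩
  choose! n hn using hn
  refine ⟨∑ v ∈ S, n v, isIntegral_of_le _ fun v => ?_⟩
  rw [map_mul, map_pow]
  by_cases hv : v ∈ S
  · refine le_trans ?_ (hn v hv)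
    refine mul_le_mul_of_nonneg_right ?_ (apply_nonneg v _)
    refine pow_le_pow_of_le_one (apply_nonneg v _) (hlt v hv).le ?_
    exact Finset.single_le_sum (f := n) (fun _ _ => Nat.zero_le _) hv
  · exact mul_le_one₀ (pow_le_one₀ (apply_nonneg v _) (finitePlace_le_one v hPi))
      (apply_nonneg v _) (hx v hv)

end places

end Pool.Agent.Helper85.RC
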