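import Pool.Agent.Helper85.RC.Sys1

/-!
# The absolute values at all embeddings of a number field: product inequality and finiteness
-/

set_option autoImplicit false

namespace Pool.Agent.Helper85.RC

open Pool.Agent.Helper85.Sub Pool.Agent.Helper10.Sub NumberField Polynomial IsDedekindDomain

section sys

/-- The prime of an index. -/
def pr (T : Finset Nat.Primes) (t : T) : ℕ := (t.1 : ℕ)

instance (T : Finset Nat.Primes) (t : T) : Fact (pr T t).Prime := ⟨t.1.2⟩

lemma pr_injective (T : Finset Nat.Primes) : Function.Injective (pr T) :=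
  fun _ _ h => Subtype.ext (Subtype.ext h)

variable (K : Type) [Field K] [NumberField K] (T : Finset Nat.Primes)

/-- All embeddings. -/
abbrev Lam : Type := (K →+* ℂ) ⊕ (Σ t : T, K →+* FF K (pr T t))

/-- The absolute value of an embedding. -/
noncomputable def av : Lam K T → AbsoluteValue K ℝ
  | Sum.inl σ => NumberField.place σ
  | Sum.inr s => NumberField.place s.2

variable {K T}

lemma av_inl (σ : K →+* ℂ) (x : K) : av K T (Sum.inl σ) x = ‖σ x‖ := rfl

lemma av_inr (t : T) (σ : K →+* FF K (pr T t)) (x : K) : av K T (Sum.inr ⟨t, σ⟩) x = ‖σ x‖ := rfl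

lemma prod_inl (x : K) : ∏ σ : K →+* ℂ, ‖σ x‖ = |((Algebra.norm ℚ x : ℚ) : ℝ)| := by
  have h1 := Algebra.norm_eq_prod_embeddings (L := K) ℚ ℂ x
  have h2 : ∏ σ : K →+* ℂ, σ x = ∏ σ : K →ₐ[ℚ] ℂ, σ x := by
    refine Fintype.prod_equiv (RingHom.equivRatAlgHom K ℂ) _ _ ?_
    intro σ
    rfl
  rw [← norm_prod, h2, ← h1, eq_ratCast, ← Complex.ofReal_ratCast, Complex.norm_real,
    Real.norm_eq_abs]

lemma prod_inr {p : ℕ} [Fact p.Prime] (x : K) :
    ∏ σ : K →+* FF K p, ‖σ x‖ = ‖((Algebra.norm ℚ x : ℚ) : ℚ_[p])‖ := by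
  have h1 := Algebra.norm_eq_prod_embeddings (L := K) ℚ (PadicAlgCl p) x
  have h2 : ∏ σ : K →+* PadicAlgCl p, σ x = ∏ σ : K →ₐ[ℚ] PadicAlgCl p, σ x := by
    refine Fintype.prod_equiv (RingHom.equivRatAlgHom K (PadicAlgCl p)) _ _ ?_
    intro σ
    rfl
  have h3 : ∏ σ : K →+* FF K p, ‖σ x‖ = ∏ σ : K →+* PadicAlgCl p, ‖σ x‖ := by
    refine Fintype.prod_equiv liftEquiv _ _ ?_
    intro σ
    rfl
  rw [h3, ← norm_prod, h2, ← h1, eq_ratCast, ← map_ratCast (algebraMap ℚ_[p] (PadicAlgCl p)),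
    PadicAlgCl.norm_extends]

lemma pint_norm {P : ℕ} {x : K} (hx : x ∈ OP K P) : PInt P (Algebra.norm ℚ x) := by
  obtain ⟨n, hn⟩ := hx
  have h1 : IsIntegral ℤ (Algebra.norm ℚ ((P : K) ^ n * x)) := Algebra.isIntegral_norm ℚ hn
  obtain ⟨z, hz⟩ := (IsIntegrallyClosed.isIntegral_iff (R := ℤ) (K := ℚ)).1 h1
  refine ⟨n * Module.finrank ℚ K, z, ?_⟩
  have h2 : Algebra.norm ℚ ((P : K) ^ n * x) =
      Algebra.norm ℚ x * (P : ℚ) ^ (n * Module.finrank ℚ K) := by
    rw [map_mul, map_pow]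
    have h3 : (P : K) = algebraMap ℚ K (P : ℚ) := by simp
    rw [h3, Algebra.norm_algebraMap, ← pow_mul, mul_comm, mul_comm n]
  rw [← h2, ← hz]
  rfl

lemma one_le_prod {x : K} (hx : x ∈ OP K (pprod (pr T))) (h0 : x ≠ 0) :
    1 ≤ ∏ σ, av K T σ x := by
  have h1 := Pool.Agent.Helper94.Sub.one_le_fac (pr_injective T) _ (pint_norm hx)
    ((Algebra.norm_ne_zero_iff (R := ℚ)).2 h0)
  refine h1.trans_eq ?_
  rw [Fintype.prod_sum_type, Fintype.prod_sigma]
  simp only [av_inl, av_inr]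
  rw [prod_inl]
  unfold Pool.Agent.Helper94.Sub.fac
  congr 1
  refine Finset.prod_congr rfl fun t _ => ?_
  exact (prod_inr x).symm

lemma card_emb {p : ℕ} [Fact p.Prime] : Fintype.card (K →+* FF K p) = Module.finrank ℚ K := by
  rw [Fintype.card_congr (liftEquiv (K := K) (p := p)),
    Fintype.card_congr (RingHom.equivRatAlgHom K (PadicAlgCl p))]
  exact AlgHom.card ℚ K (PadicAlgCl p)

/-- Northcott. -/
lemma finite_le (B : ℝ) : {x : K | x ∈ OP K (pprod (pr T)) ∧ ∀ σ, av K T σ x ≤ B}.Finite := by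
  classical
  let J := Module.Free.ChooseBasisIndex ℤ (𝓞 K)
  let ω : Module.Basis J ℚ K := integralBasis K
  have hDcard : Module.finrank ℚ K = Fintype.card J := Module.finrank_eq_card_basis ω
  let e : J ≃ (K →+* ℂ) := Fintype.equivOfCardEq (hDcard.symm.trans (Embeddings.card K ℂ).symm)
  let e' : ∀ t : T, J ≃ (K →+* FF K (pr T t)) := fun t =>
    Fintype.equivOfCardEq (hDcard.symm.trans card_emb.symm)
  obtain ⟨c0, hc0, hinv⟩ := Pool.Agent.Helper98.Sub.exists_inv_bound _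
    (Pool.Agent.Helper98.Sub.det_emb_ne_zero ω e e.injective)
  have hinv' := fun t : T => Pool.Agent.Helper98.Sub.exists_inv_bound _
    (Pool.Agent.Helper98.Sub.det_emb_ne_zero ω (e' t) (e' t).injective)
  choose c' hc' hinv' using hinv'
  let cc : ℝ := (c0 + ∑ t, c' t) * |B|
  have hcs : 0 ≤ ∑ t, c' t := Finset.sum_nonneg fun t _ => hc' t
  have hS : (Set.univ.pi fun _ : J => {x : ℚ | PInt (pprod (pr T)) x ∧ |(x : ℝ)| ≤ cc ∧
      ∀ t, ‖(x : ℚ_[pr T t])‖ ≤ cc}).Finite :=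
    Set.Finite.pi fun _ => Pool.Agent.Helper98.Sub.finite_bounded cc
  refine (hS.preimage (f := fun x : K => (fun j => ω.repr x j))
    (Set.injOn_of_injective fun a b hab => ω.repr.injective
      (Finsupp.ext fun j => congrFun hab j))).subset ?_
  rintro x ⟨⟨n, hn⟩, hx⟩ j _
  refine ⟨Pool.Agent.Helper98.Sub.pint_of_integral _ _ n hn _, ?_, ?_⟩
  · have h1 := hinv (fun q => ((ω.repr x q : ℚ) : ℂ)) |B| (fun r => by
      have h2 := Pool.Agent.Helper98.Sub.emb_repr ω (e r) x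
      have h3 : ∑ j, (Matrix.of fun j j' => e j (ω j')) r j * ((ω.repr x j : ℚ) : ℂ) = e r x := by
        rw [h2]
        exact Finset.sum_congr rfl fun j _ => mul_comm _ _
      rw [h3]
      exact (hx (Sum.inl (e r))).trans (le_abs_self B)) j
    have h2 : ‖((ω.repr x j : ℚ) : ℂ)‖ = |((ω.repr x j : ℚ) : ℝ)| := by
      rw [← Complex.ofReal_ratCast, Complex.norm_real, Real.norm_eq_abs]
    rw [← h2]
    refine h1.trans ?_
    simp only [cc]
    gcongr
    linarith
  · intro t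
    have h1 := hinv' t (fun q => ((ω.repr x q : ℚ) : FF K (pr T t))) |B| (fun r => by
      have h2 := Pool.Agent.Helper98.Sub.emb_repr ω (e' t r) x
      have h3 : ∑ j, (Matrix.of fun j j' => e' t j (ω j')) r j *
          ((ω.repr x j : ℚ) : FF K (pr T t)) = e' t r x := by
        rw [h2]
        exact Finset.sum_congr rfl fun j _ => mul_comm _ _
      rw [h3]
      exact (hx (Sum.inr ⟨t, e' t r⟩)).trans (le_abs_self B)) j
    have h2 : ‖((ω.repr x j : ℚ) : FF K (pr T t))‖ = ‖((ω.repr x j : ℚ) : ℚ_[pr T t])‖ := by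
      rw [← map_ratCast (algebraMap ℚ_[pr T t] (FF K (pr T t))), norm_algebraMap']
    rw [← h2]
    refine h1.trans ?_
    have h3 : c' t ≤ ∑ t, c' t := Finset.single_le_sum (fun t _ => hc' t) (Finset.mem_univ t)
    simp only [cc]
    gcongr
    linarith

end sys

end Pool.Agent.Helper85.RC
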